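import Pool.Agent.MP_8be872_ag.H63.SpecB

/-! The square root of the virtual canonical character exists and is a product of determinants. -/

namespace Pool.Agent.MP_8be872_ag.H17

open Finset H38 H56 H63
open scoped Classical

variable {Q : Quiv} {w v D : Fin Q.n → ℕ}

/-- The shift of the weight of a kind. -/
noncomputable def cK : Kd Q → G
  | .inl (.inl ε) => arrWt Q ε
  | .inl (.inr true) => -qq
  | .inl (.inr false) => -hb - qq
  | .inr (.inl ε) => arrWt Q ε - qq
  | .inr (.inr true) => 0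
  | .inr (.inr false) => -hb

theorem wt_gg (k : Kd Q) (p q : Nb Q w v D) :
    wt bw (0 : Empty → G) (gg k p q) = bw q - bw p - cK k := by
  rcases k with (ε | _ | _) | (ε | _ | _) <;> rfl

theorem isKap_map {κ : G} (h : IsKap (w := w) (v := v) (D := D) κ) (φ : G →+ ℤ) :
    2 * φ κ = (∑ k : Kd Q, (k.elim (fun _ => 1) fun _ => -1 : ℤ) * ∑ p : Nb Q w v D, ∑ q,
      if shape rad k p q then φ (bw q) - φ (bw p) - φ (cK k) else 0) +
      (∑ i, aExp Q w v i * D i) * φ qq := by
  have h1 := congrArg φ h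
  simp only [map_add, map_sum, map_zsmul, map_nsmul, msk, wt_gg, apply_ite φ, map_sub, map_zero,
    smul_eq_mul, nsmul_eq_mul, Nat.cast_ofNat] at h1
  simpa only [mul_sum] using h1

/-! ### Constancy on the blocks -/

theorem shape_congr {k : Kd Q} {p q p' q' : Nb Q w v D} (h1 : vx p = vx p') (h2 : blk p = blk p')
    (h3 : vx q = vx q') (h4 : blk q = blk q') : shape rad k p q ↔ shape rad k p' q' := by
  rcases k with (⟨_ | e, s⟩ | _ | _) | (⟨_ | e, s⟩ | _ | _) <;>
    simp only [shape, arrow, rad, Sum.elim_inl, Sum.elim_inr, id, h1, h2, h3, h4]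

theorem xi_gen (p : Nb Q w v D) {r : ℕ} (h : ∀ m, r ≠ 3 * m + 4) : xi p (gen r) = 0 := by
  rcases p with a | a | a
  · exact (co_gen _ _).trans (if_neg (h _))
  · exact (co_gen _ _).trans (if_neg (h _))
  · rfl

theorem xi_qq (p : Nb Q w v D) : xi p qq = 0 := xi_gen p fun m => by omega

theorem xi_tau (p : Nb Q w v D) : xi p tau = 0 := xi_gen p fun m => by omega

theorem xi_tE (p : Nb Q w v D) (e : ℕ) : xi p (tE e) = 0 := xi_gen p fun m => by omega

theorem xi_cK (p : Nb Q w v D) (k : Kd Q) : xi p (cK k) = 0 := by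
  rcases k with (⟨_ | e, _ | _⟩ | _ | _) | (⟨_ | e, _ | _⟩ | _ | _) <;>
    simp [cK, arrWt, hb, xi_qq, xi_tau, xi_tE]

theorem bas_eq {u : Fin Q.n → ℕ} (c : Fin Q.n → ℕ) (a b : Bas Q u) :
    3 * Nat.pair a.1 (c a.1 + a.2) + 4 = 3 * Nat.pair b.1 (c b.1 + b.2) + 4 ↔ a = b := by
  refine ⟨fun h => ?_, fun h => by rw [h]⟩
  obtain ⟨i, x⟩ := a
  obtain ⟨j, y⟩ := b
  obtain ⟨h1, h2⟩ := Nat.pair_eq_pair.1 (show Nat.pair i (c i + x) = Nat.pair j (c j + y) by
    simp only at h
    omega)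
  obtain rfl := Fin.ext h1
  obtain rfl : x = y := Fin.ext (by omega)
  rfl

theorem bas_ne (a : Bas Q D) (b : Bas Q v) :
    3 * Nat.pair a.1 (v a.1 + a.2) + 4 ≠ 3 * Nat.pair b.1 b.2 + 4 := fun h => by
  obtain ⟨i, x⟩ := a
  obtain ⟨j, y⟩ := b
  obtain ⟨h1, h2⟩ := Nat.pair_eq_pair.1 (show Nat.pair i (v i + x) = Nat.pair j y by
    simp only at h
    omega)
  obtain rfl := Fin.ext h1
  omega

theorem xi_bw {p : Nb Q w v D} (hp : blk p < 2) (q : Nb Q w v D) :
    xi p (bw q) = if q = p then 1 else 0 := by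
  rcases p with a | a | a
  · rcases q with b | b | b
    · exact (co_gen _ _).trans (if_congr ((bas_eq v b a).trans Sum.inl.inj_iff.symm) rfl rfl)
    · exact (co_gen _ _).trans ((if_neg (bas_ne a b).symm).trans (if_neg (by simp)).symm)
    · exact (xi_gen _ fun m => by omega).trans (if_neg (by simp)).symm
  · rcases q with b | b | b
    · exact (co_gen _ _).trans ((if_neg (bas_ne b a)).trans (if_neg (by simp)).symm)
    · refine (co_gen _ _).trans (if_congr ?_ rfl rfl)
      simpa using bas_eq 0 b a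
    · exact (xi_gen _ fun m => by omega).trans (if_neg (by simp)).symm
  · exact absurd hp (lt_irrefl 2)

theorem const {κ : G} (h : IsKap (w := w) (v := v) (D := D) κ) {b : ℕ} (hb : b < 2) :
    Const w v D b κ := by
  intro p q hp hq hv
  have h1 := isKap_map h (xi p)
  have h2 := isKap_map h (xi q)
  simp only [xi_bw (hp ▸ hb), xi_bw (hq ▸ hb), xi_cK, xi_qq, mul_zero, add_zero, sub_zero] at h1 h2
  have e1 : ∀ x, vx (Equiv.swap p q x) = vx x := fun x => by
    rw [Equiv.swap_apply_def]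
    split_ifs with a1 a2
    · rw [a1, hv]
    · rw [a2, hv]
    · rfl
  have e2 : ∀ x, blk (Equiv.swap p q x) = blk x := fun x => by
    rw [Equiv.swap_apply_def]
    split_ifs with a1 a2
    · rw [a1, hp, hq]
    · rw [a2, hp, hq]
    · rfl
  refine mul_left_cancel₀ two_ne_zero (h1.trans (Eq.trans ?_ h2.symm))
  refine sum_congr rfl fun k _ => congrArg _ ?_
  rw [← Equiv.sum_comp (Equiv.swap p q)]
  refine sum_congr rfl fun x _ => ?_
  rw [← Equiv.sum_comp (Equiv.swap p q)]
  refine sum_congr rfl fun y _ => if_congr (shape_congr (e1 x) (e2 x) (e1 y) (e2 y)) ?_ rfl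
  simp only [Equiv.swap_apply_eq_iff, Equiv.swap_apply_left]

/-! ### Parity -/

theorem sym_zero {N : Type} [Fintype N] (F : N → N → ZMod 2) :
    ∑ p, ∑ q, (F p q + F q p) = 0 := by
  simp only [sum_add_distrib]
  rw [sum_comm (f := fun p q => F q p)]
  exact CharTwo.add_self_eq_zero _

theorem blk_cases (p : Nb Q w v D) : blk p = 0 ∨ blk p = 1 ∨ blk p = 2 := by
  rcases p with a | a | a <;> simp [blk]

/-- The indicator of a vertex and a block. -/
noncomputable def ic (i : Fin Q.n) (b : ℕ) (p : Nb Q w v D) : ZMod 2 :=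
  if vx p = i ∧ blk p = b then 1 else 0

theorem sum_bas (u : Fin Q.n → ℕ) (i : Fin Q.n) :
    ∑ a : Bas Q u, (if a.1 = i then 1 else 0 : ZMod 2) = u i := by
  rw [Fintype.sum_sigma, sum_eq_single i (fun j _ hj => by simp [hj]) (by simp)]
  simp

theorem ic0 (i : Fin Q.n) : ∑ p : Nb Q w v D, ic i 0 p = D i := by
  simp only [ic, Fintype.sum_sum_type, vx, blk, Sum.elim_inl, Sum.elim_inr, and_true, sum_bas]
  simp

theorem ic1 (i : Fin Q.n) : ∑ p : Nb Q w v D, ic i 1 p = v i := by
  simp only [ic, Fintype.sum_sum_type, vx, blk, Sum.elim_inl, Sum.elim_inr, and_true, sum_bas]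
  simp

theorem ic2 (i : Fin Q.n) : ∑ p : Nb Q w v D, ic i 2 p = w i := by
  simp only [ic, Fintype.sum_sum_type, vx, blk, Sum.elim_inl, Sum.elim_inr, and_true, sum_bas]
  simp

/-- The sum of the weights of a kind modulo two. -/
noncomputable def Tm (x : Nb Q w v D → ZMod 2) (c : Kd Q → ZMod 2) (k : Kd Q) : ZMod 2 :=
  ∑ p, ∑ q, if shape rad k p q then x q + x p + c k else 0

/-- The number of entries of an arrow between `T` and the rest. -/
noncomputable def Cn (w v D : Fin Q.n → ℕ) (o : Option (Fin Q.ne)) : ZMod 2 :=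
  ∑ p : Nb Q w v D, ∑ q, if arrow (.inl (o, true)) p q ∧ ¬ (blk p = 0 ↔ blk q = 0) then 1 else 0

theorem arrow_swap (o : Option (Fin Q.ne)) (p q : Nb Q w v D) :
    arrow (.inl (o, false)) q p ↔ arrow (.inl (o, true)) p q := by
  cases o <;> simp only [arrow, if_true, Bool.false_eq_true, if_false]
  · rw [eq_comm]
    tauto
  · tauto

theorem Tm_arr (x : Nb Q w v D → ZMod 2) (c : Kd Q → ZMod 2) (o : Option (Fin Q.ne)) (a t : ZMod 2)
    (h1 : ∀ s, c (kx (o, s)) = a) (h2 : ∀ s, c (kt (o, s)) = a + t) :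
    Tm x c (kx (o, true)) + Tm x c (kx (o, false)) +
      (Tm x c (kt (o, true)) + Tm x c (kt (o, false))) = Cn w v D o * t := by
  unfold Tm Cn
  rw [sum_comm (f := fun p q => if shape rad (kx (o, false)) p q then _ else _),
    sum_comm (f := fun p q => if shape rad (kt (o, false)) p q then _ else _)]
  simp only [← sum_add_distrib, sum_mul, h1, h2, shape, Sum.elim_inl, Sum.elim_inr, id, arrow_swap]
  refine sum_congr rfl fun p _ => sum_congr rfl fun q _ => ?_
  generalize x p = y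
  generalize x q = z
  by_cases k1 : arrow (.inl (o, true)) p q <;> by_cases k2 : blk p = 0 <;>
    by_cases k3 : blk q = 0 <;> simp only [k1, k2, k3, true_and, false_and, if_true, if_false,
      imp_self, true_imp_iff, false_imp_iff, iff_self, iff_true, iff_false, not_true, not_false_iff]
  all_goals
    clear h1 h2
    revert y z a t
    decide

theorem Tm_gauge (x : Nb Q w v D → ZMod 2) (c : Kd Q → ZMod 2) (h1 : c kc = 0) (h2 : c ke = 0) :
    Tm x c kc + Tm x c ke = 0 := by
  rw [← sym_zero fun p q : Nb Q w v D =>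
    if vx p = vx q ∧ blk p = blk q ∧ blk p < 2 then x p else 0]
  simp only [Tm, ← sum_add_distrib, h1, h2, shape, Sum.elim_inr, id, arrow, rad, add_zero]
  refine sum_congr rfl fun p _ => sum_congr rfl fun q _ => ?_
  generalize x p = y
  generalize x q = z
  simp only [eq_comm (a := vx q)]
  by_cases k1 : vx p = vx q <;> rcases blk_cases p with k2 | k2 | k2 <;>
    rcases blk_cases q with k3 | k3 | k3 <;> simp [k1, k2, k3, add_comm, CharTwo.add_self_eq_zero]

theorem Cn_some (e : Fin Q.ne) : Cn w v D (some e) =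
    (v (Q.tl e) : ZMod 2) * D (Q.hd e) + v (Q.hd e) * D (Q.tl e) := by
  rw [mul_comm, ← @ic0 Q w v D (Q.hd e), ← @ic0 Q w v D (Q.tl e), ← @ic1 Q w v D (Q.hd e),
    ← @ic1 Q w v D (Q.tl e), sum_mul_sum, sum_mul_sum, Cn, ← sum_add_distrib]
  refine sum_congr rfl fun p _ => ?_
  rw [← sum_add_distrib]
  refine sum_congr rfl fun q _ => ?_
  simp only [arrow, ic, if_true]
  by_cases k0 : vx p = Q.hd e <;> by_cases k1 : vx q = Q.tl e <;>
    rcases blk_cases p with k2 | k2 | k2 <;> rcases blk_cases q with k3 | k3 | k3 <;>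
    simp [k0, k1, k2, k3]

theorem Cn_none : Cn w v D none = ∑ i, (w i : ZMod 2) * D i := by
  have h : ∀ i, (w i : ZMod 2) * D i = ∑ p : Nb Q w v D, ∑ q : Nb Q w v D, ic i 0 p * ic i 2 q :=
    fun i => by rw [← sum_mul_sum, ic0, ic2, mul_comm]
  simp only [h]
  rw [sum_comm, Cn]
  refine sum_congr rfl fun p _ => ?_
  rw [sum_comm]
  refine sum_congr rfl fun q _ => ?_
  rw [sum_eq_single (vx p) (fun i _ hi => by simp [ic, hi.symm]) (by simp)]
  simp only [arrow, ic, if_true]
  simp only [eq_comm (a := vx q)]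
  by_cases k1 : vx p = vx q <;> rcases blk_cases p with k2 | k2 | k2 <;>
    rcases blk_cases q with k3 | k3 | k3 <;> simp [k1, k2, k3]

theorem aExp_cast : ((∑ i, aExp Q w v i * D i : ℤ) : ZMod 2) = ∑ o, Cn w v D o := by
  have h : ∀ (f : Fin Q.ne → Fin Q.n) (g : Fin Q.ne → ZMod 2),
      ∑ i, (∑ e with f e = i, g e) * (D i : ZMod 2) = ∑ e, g e * D (f e) := fun f g => by
    rw [← sum_fiberwise univ f]
    refine sum_congr rfl fun i _ => ?_
    rw [sum_mul]
    exact sum_congr rfl fun e he => by rw [(mem_filter.1 he).2]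
  simp only [Fintype.sum_option, Cn_some, Cn_none, aExp, sum_add_distrib]
  push_cast
  simp only [CharTwo.sub_eq_add, add_mul, sum_add_distrib, h]
  exact add_comm _ _

theorem sum_Tm (ψ : G →+ ZMod 2) :
    ∑ k : Kd Q, Tm (fun p : Nb Q w v D => ψ (bw p)) (fun k => ψ (cK k)) k =
      (∑ o, Cn w v D o) * ψ qq := by
  have h0 : ψ hb = 0 := by rw [hb, map_add, CharTwo.add_self_eq_zero]
  have h1 : ∀ o s, ψ (arrWt Q (o, s)) = ψ (arrWt Q (o, true)) := by
    rintro (_ | e) (_ | _) <;> simp [arrWt]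
  have h2 := Tm_gauge (fun p : Nb Q w v D => ψ (bw p)) (fun k => ψ (cK k)) (map_zero ψ)
    (by simp [cK, h0])
  have h3 : Tm (fun p : Nb Q w v D => ψ (bw p)) (fun k => ψ (cK k)) kz =
      Tm (fun p : Nb Q w v D => ψ (bw p)) (fun k => ψ (cK k)) ka :=
    sum_congr rfl fun p _ => sum_congr rfl fun q _ => if_congr Iff.rfl (by simp [cK, h0]) rfl
  have h4 := fun o => Tm_arr (fun p : Nb Q w v D => ψ (bw p)) (fun k => ψ (cK k)) o
    (ψ (arrWt Q (o, true))) (ψ qq) (h1 o) fun s => by
      rw [← h1 o s, ← CharTwo.sub_eq_add, ← map_sub]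
      rfl
  simp only [Fintype.sum_sum_type, Fintype.sum_prod_type, Fintype.sum_bool, h2, h3,
    CharTwo.add_self_eq_zero, add_zero]
  rw [← sum_add_distrib, sum_mul]
  exact sum_congr rfl fun o _ => h4 o

theorem half {x : G} (h : ∀ ψ : G →+ ZMod 2, ψ x = 0) : ∃ κ : G, 2 • κ = x := by
  refine ⟨toLex ((ofLex x).mapRange (· / 2) (by simp)), ?_⟩
  refine ofLex.injective (Finsupp.ext fun r => ?_)
  have h1 : ((ofLex x r : ℤ) : ZMod 2) = 0 := h ((Int.castAddHom _).comp (co r))
  have h2 := (ZMod.intCast_zmod_eq_zero_iff_dvd _ 2).1 h1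
  change 2 • (ofLex x r / 2) = _
  rw [nsmul_eq_mul]
  exact Int.mul_ediv_cancel' h2

theorem kap : KapStmt := by
  intro Q w v D
  refine ⟨half fun ψ => ?_, fun κ h => ⟨const h two_pos, const h one_lt_two⟩⟩
  rw [map_add, map_zsmul, zsmul_eq_mul, aExp_cast, ← sum_Tm, map_sum, ← sum_add_distrib]
  refine sum_eq_zero fun k _ => ?_
  rw [CharTwo.add_eq_zero]
  simp only [map_sum, map_zsmul, msk, wt_gg, apply_ite ψ, map_sub, map_zero, CharTwo.sub_eq_add, Tm]
  cases k <;> simp

end Pool.Agent.MP_8be872_ag.H17
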